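import Pool.Agent.H365Orth.Final

set_option autoImplicit false

namespace Pool.Agent.Results.MP_ac2766_co.QuadricLower

/-- every `k` distinct indices contain two indices whose vectors are orthogonal. -/
def KOrthogonal {n d : ℕ} (k : ℕ) (v : Fin n → EuclideanSpace ℝ (Fin d)) : Prop :=
  ∀ K : Finset (Fin n), K.card = k → ∃ i ∈ K, ∃ j ∈ K, i ≠ j ∧ inner ℝ (v i) (v j) = 0

/-- `f n k`: the supremum (a maximum) of `‖v₁ + … + vₙ‖` over `k`-orthogonal sequences of unit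
vectors in some `ℝ^d`. -/
noncomputable def f (n k : ℕ) : ℝ :=
  sSup {r : ℝ | ∃ (d : ℕ) (v : Fin n → EuclideanSpace ℝ (Fin d)),
    (∀ i, ‖v i‖ = 1) ∧ KOrthogonal k v ∧ r = ‖∑ i, v i‖}

theorem bddAbove (n k : ℕ) : BddAbove {r : ℝ | ∃ (d : ℕ) (v : Fin n → EuclideanSpace ℝ (Fin d)),
    (∀ i, ‖v i‖ = 1) ∧ KOrthogonal k v ∧ r = ‖∑ i, v i‖} := by
  refine ⟨n, ?_⟩
  rintro r ⟨d, v, hv, -, rfl⟩
  calc ‖∑ i, v i‖ ≤ ∑ i, ‖v i‖ := norm_sum_le _ _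
    _ = n := by simp [hv]

/-- For every fixed `k ≥ 3`, `f(n,k) ≥ c_k n^{(3k-4)/(4(k-1))}` for all large `n`; the exponent is
`3/4 - 1/(4(k-1))`, larger than `2/3` for every `k ≥ 5`. -/
theorem result :
    ∀ k : ℕ, 3 ≤ k → ∃ c : ℝ, 0 < c ∧ ∃ N : ℕ, ∀ n : ℕ, N ≤ n →
      c * (n : ℝ) ^ (3 / 4 - 1 / (4 * ((k : ℝ) - 1))) ≤ f n k := by
  intro k hk
  obtain ⟨m, rfl⟩ := Nat.exists_eq_add_of_le hk
  obtain ⟨c, hc, N, hN⟩ := H365Orth.main_bound m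
  refine ⟨c, hc, N, fun n hn => ?_⟩
  obtain ⟨v, hv1, hv2, hv3⟩ := hN n hn
  have hexp : (3 / 4 - 1 / (4 * (((3 + m : ℕ) : ℝ) - 1)) : ℝ) = (3 * (m : ℝ) + 5) / (4 * ((m : ℝ) + 2)) := by
    have hm : (0 : ℝ) < (m : ℝ) + 2 := by positivity
    have h1 : ((3 + m : ℕ) : ℝ) - 1 = (m : ℝ) + 2 := by push_cast; ring
    rw [h1]
    field_simp
    ring
  rw [hexp]
  refine hv3.trans (le_csSup (bddAbove n _) ⟨n, v, hv1, ?_, rfl⟩)
  intro K hK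
  exact hv2 K (by omega)

end Pool.Agent.Results.MP_ac2766_co.QuadricLower
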